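import Pool.Agent.Q209.AKE.Main

/-!
# The transfer principle with a uniformizer fails for `∃∀∃` and all larger standard fragments

Let `k` be a field of characteristic zero, `M = k((s))((t))` with the valuation with values in
`ℤ ×ₗ ℤ` and the uniformizer `s`, of value `(0, 1)`, and `N = k((t))` with the `t`-adic valuation and
the uniformizer `t`. Both are henselian with residue field `k`. The sentence

`∃ γ ∀ δ (γ ≠ ∞ ∧ γ ≠ δ + δ ∧ γ ≠ δ + δ + v(ϖ))`

over the value-group sort holds in `(M, s)` (take `γ = (1, 0)`) and fails in `(N, t)`, since the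
value group of `N` is `ℤ` and `v(t) = 1`.
-/

set_option autoImplicit false

namespace Pool.Agent.Results.MP_65f174_lc.TransferFails

open Q209.AKE

/-- For every `n ≥ 3` the `n`-th standard fragment (`∃∀∃`, `∀∃∀∃`, ...) does not satisfy the
transfer principle; moreover there are counterexamples with any prescribed residue field `k` of
characteristic zero, the same for both valued fields. -/
theorem result :
    (∀ n : ℕ, 3 ≤ n → ¬ Question n) ∧
    ∀ (k : Type) [Field k] [CharZero k],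
      ∃ (M : ValField) (p : M.K) (N : ValField) (q : N.K),
        M.EquicharZero ∧ M.Henselian ∧ M.NontrivVal ∧ M.IsUniformizer p ∧
        N.EquicharZero ∧ N.Henselian ∧ N.NontrivVal ∧ N.IsUniformizer q ∧
        IsZGroup N.G ∧ Nonempty (N.G ≃+o ℤ) ∧
        Nonempty (M.k ≃+* k) ∧ Nonempty (N.k ≃+* k) ∧
        (∀ n : ℕ, RgTh M.k n = RgTh N.k n) ∧
        ∃ f : Pnx 0 0 0, HasPattern [true, false] f ∧ ∀ n : ℕ, 3 ≤ n → f ∈ Th M p n ∧
          HasPattern (stdPattern n) f ∧ ¬ f.Holds N q Fin.elim0 Fin.elim0 Fin.elim0 := by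
  constructor
  · intro n hn h
    have h1 := h (LS2 ℚ) (ss ℚ) (LS ℚ) (tt ℚ)
      ((LS2_char ℚ).1.trans (LS2_char ℚ).2.symm) (LS2_henselian ℚ) (Lau_nontriv _)
      (uniformizer_ss ℚ) (LS_char ℚ) (LS_henselian ℚ) (Lau_nontriv _) (LS_zgroup ℚ)
      (uniformizer_tt ℚ) (fun _ hf => hf)
    exact not_sigma_LS ℚ (h1 ⟨sigma_pattern n hn, sigma_LS2 ℚ⟩).2
  · intro k _ _
    refine ⟨LS2 k, ss k, LS k, tt k, LS2_char k, LS2_henselian k, Lau_nontriv _, uniformizer_ss k,
      LS_char k, LS_henselian k, Lau_nontriv _, uniformizer_tt k, LS_zgroup k, LS_G_int k,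
      ⟨RingEquiv.refl k⟩, ⟨RingEquiv.refl k⟩, fun _ => rfl, sigma,
      .exG _ _ (.next _ _ _ (.allG _ _ (.qf _ _))), fun n hn =>
      ⟨⟨sigma_pattern n hn, sigma_LS2 k⟩, sigma_pattern n hn, not_sigma_LS k⟩⟩

end Pool.Agent.Results.MP_65f174_lc.TransferFails
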